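import Pool.Agent.Y136.SquareZero.Universal

namespace Pool.Agent.Results.MP_356f69_al.EveryBaseRing

open Pool.Agent.Helper607.Bases Pool.Agent.Y136.SquareZero

universe u

/-- Let `K` be a nonzero commutative ring and let `U_K` be the `K`-algebra generated by the
entries of one square matrix of each size `m + 1`, subject only to the relations that these
matrices have square zero.  Let `R` be `U_K`, or any ring with a homomorphism onto `U_K` that is
split by an additive and multiplicative map (which need not preserve `1`), for instance
`S × U_K` for an arbitrary ring `S`.  Then `R` maps onto `K`, and for every `n ≥ 2` the complex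
of the problem over `R` has nonzero homology in degree `p = 0`, both for `C_p = ⊕_σ C_σ` over
all tuples and for the induced form; so the complexes over `R` are not highly acyclic. -/
theorem result (K : Type) [CommRing K] [Nontrivial K] :
    (∀ (R : Type u) [Ring R] (p : R →+* Universal K) (s : Universal K →ₙ+* R),
      (∀ x, p (s x) = x) → FailsOver K R) ∧
    (∀ (S : Type u) [Ring S], FailsOver K (S × Universal K)) ∧
    FailsOver K (Universal K) :=
  ⟨fun _ _ p s hps => nonvanishing_retract K p s hps, fun S _ => nonvanishing_prod K S,
    nonvanishing_retract K (RingHom.id _) (RingHom.id _ : Universal K →+* Universal K)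
      fun _ => rfl⟩

end Pool.Agent.Results.MP_356f69_al.EveryBaseRing
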